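import Pool.Agent.H21.BT.Targets

/-! row LVT of the board bt_modules (MP_c59857_nt): bookkeeping of the windows -/

set_option autoImplicit false

open Finset Pool.Agent.H6.N4D Pool.Agent.H21.BS Pool.Agent.H21.BT

namespace Pool.Agent.H75.BT

theorem pf_LVT (hLVL : T_LVL) : T_LVT := by
  intro S W A h
  have h0 : (S.fam fun _ => 0).Ok W := h.fm _ fun _ => h.k1
  obtain ⟨h1, -, h3, -, -⟩ := hLVL _ _ h0
  refine ⟨fun i hi => ?_, fun i hi1 hi => (h3 0 i (by omega) hi).2, ?_⟩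
  · obtain ⟨a1, a2, a3, a4, a5⟩ := h1 i hi
    have a6 : ∀ g : ℕ → ℂ, ∑ x ∈ range S.L, g (S.U + x) =
      ∑ j ∈ range (S.cnt i), ∑ x ∈ range (S.N i), g (S.U + j * S.N i + x) := a5
    refine ⟨a1, h0.s1 0 (Nat.zero_le _), a2, a3, a4, a6, fun g => ?_⟩
    have a7 := a6 fun n => (g n : ℂ)
    exact_mod_cast a7
  · intro z i j x hi _ hx
    unfold TS.Om
    have h4 : (S.U + j * S.N i + x - S.U) / S.N i = j := by
      rw [add_assoc, Nat.add_sub_cancel_left]
      rw [Nat.div_eq_of_lt_le]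
      · omega
      · rw [add_mul, one_mul]; omega
    rw [h4]

end Pool.Agent.H75.BT
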